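import Mathlib

/-!
MP_a6e4a6_nt. The numbers predicted by the conjecture of Broadhurst and Kreimer are nonnegative.

`K m` is the series `1 / (1 - X ^ m)`.  `1 / (1 - O t + S t ^ 2 (1 - t ^ 2))` is the sum of the
`c d t ^ d`.  With `T = (X^3 + X^5 + X^9) K 12` and `U = (X^7 + X^11 + X^13) K 12` one has `O = T + U`
and `T U - S = (X^10 + 2 X^16) (K 12)^2 + X^14 K 12`, and so by induction `c (d+1) - T c d` has
nonnegative coefficients, because

`c (d+2) - T c (d+1) = U (c (d+1) - T c d) + (T U - S) c d + S c (d-2)`.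
-/

set_option autoImplicit false

namespace Pool.Agent.BKN

open PowerSeries

/-- all coefficients are nonnegative -/
def NN (f : PowerSeries ℤ) : Prop := ∀ n, 0 ≤ coeff n f

theorem NN.add {f g : PowerSeries ℤ} (hf : NN f) (hg : NN g) : NN (f + g) := by
  intro n
  rw [map_add]
  exact add_nonneg (hf n) (hg n)

theorem NN.mul {f g : PowerSeries ℤ} (hf : NN f) (hg : NN g) : NN (f * g) := by
  intro n
  rw [coeff_mul]
  exact Finset.sum_nonneg fun p _ => mul_nonneg (hf p.1) (hg p.2)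

theorem NN.xpow (k : ℕ) : NN ((X : PowerSeries ℤ) ^ k) := by
  intro n
  rw [coeff_X_pow]
  split_ifs <;> norm_num

theorem NN.one : NN (1 : PowerSeries ℤ) := by
  have h := NN.xpow 0
  rwa [pow_zero] at h

theorem NN.zero : NN (0 : PowerSeries ℤ) := by
  intro n
  rw [map_zero]

/-- `1 / (1 - X ^ m)` -/
noncomputable def K (m : ℕ) : PowerSeries ℤ := PowerSeries.mk fun n => if m ∣ n then 1 else 0

theorem NN.K (m : ℕ) : NN (K m) := by
  intro n
  rw [BKN.K, coeff_mk]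
  split_ifs <;> norm_num

theorem K_mul (m : ℕ) (hm : 1 ≤ m) : (1 - X ^ m) * K m = 1 := by
  ext n
  rw [sub_mul, one_mul, map_sub, coeff_X_pow_mul', K, coeff_mk, coeff_one]
  by_cases h : m ≤ n
  · rw [if_pos h, coeff_mk]
    have h0 : n ≠ 0 := by omega
    rw [if_neg h0]
    have h1 : m ∣ n - m ↔ m ∣ n := by
      constructor
      · intro h2
        have h3 : n = (n - m) + m := by omega
        rw [h3]
        exact dvd_add h2 (dvd_refl m)
      · intro h2
        exact Nat.dvd_sub h2 (dvd_refl m)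
    by_cases h2 : m ∣ n
    · rw [if_pos h2, if_pos (h1.2 h2)]
      norm_num
    · rw [if_neg h2, if_neg fun h3 => h2 (h1.1 h3)]
      norm_num
  · rw [if_neg h]
    by_cases h0 : n = 0
    · subst h0
      simp
    · rw [if_neg h0, if_neg]
      · norm_num
      · intro h2
        exact h (Nat.le_of_dvd (Nat.pos_of_ne_zero h0) h2)

theorem one_sub_ne (m : ℕ) (hm : 1 ≤ m) : (1 - X ^ m : PowerSeries ℤ) ≠ 0 := by
  intro h
  have h1 := K_mul m hm
  rw [h, zero_mul] at h1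
  exact zero_ne_one h1

/-- the solution of `(1 - X ^ m) f = g` -/
theorem eq_of_mul (m : ℕ) (hm : 1 ≤ m) {f g : PowerSeries ℤ} (h : (1 - X ^ m) * f = g) :
    f = g * K m := by
  refine mul_left_cancel₀ (one_sub_ne m hm) ?_
  linear_combination h - g * K_mul m hm

/-- `T` -/
noncomputable def T : PowerSeries ℤ := (X ^ 3 + X ^ 5 + X ^ 9) * K 12

/-- `U` -/
noncomputable def U : PowerSeries ℤ := (X ^ 7 + X ^ 11 + X ^ 13) * K 12

theorem NN.T : NN T := ((NN.xpow 3).add (NN.xpow 5)).add (NN.xpow 9) |>.mul (NN.K 12)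

theorem NN.U : NN U := ((NN.xpow 7).add (NN.xpow 11)).add (NN.xpow 13) |>.mul (NN.K 12)

theorem O_eq {O : PowerSeries ℤ} (hO : (1 - X ^ 2) * O = X ^ 3) : O = T + U := by
  refine mul_left_cancel₀ (one_sub_ne 12 (by norm_num)) ?_
  rw [T, U]
  linear_combination (1 + X ^ 2 + X ^ 4 + X ^ 6 + X ^ 8 + X ^ 10) * hO -
    (X ^ 3 + X ^ 5 + X ^ 9 + X ^ 7 + X ^ 11 + X ^ 13) * K_mul 12 (by norm_num)

theorem TU_eq {S : PowerSeries ℤ} (hS : (1 - X ^ 4) * (1 - X ^ 6) * S = X ^ 12) :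
    T * U - S = (X ^ 10 + X ^ 16 + X ^ 16) * (K 12 * K 12) + X ^ 14 * K 12 := by
  have h0 := one_sub_ne 12 (by norm_num)
  refine mul_left_cancel₀ (mul_ne_zero h0 h0) ?_
  have hK := K_mul 12 (by norm_num)
  rw [T, U]
  linear_combination (-(1 + X ^ 4 + X ^ 8) * (1 + X ^ 6)) * hS +
    (((X ^ 3 + X ^ 5 + X ^ 9) * (X ^ 7 + X ^ 11 + X ^ 13) - (X ^ 10 + X ^ 16 + X ^ 16)) *
      ((1 - X ^ 12) * K 12 + 1) - X ^ 14 * (1 - X ^ 12)) * hK

theorem NN.TU {S : PowerSeries ℤ} (hS : (1 - X ^ 4) * (1 - X ^ 6) * S = X ^ 12) :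
    NN (BKN.T * BKN.U - S) := by
  rw [TU_eq hS]
  exact ((((NN.xpow 10).add (NN.xpow 16)).add (NN.xpow 16)).mul ((NN.K 12).mul (NN.K 12))).add
    ((NN.xpow 14).mul (NN.K 12))

theorem S_eq {S : PowerSeries ℤ} (hS : (1 - X ^ 4) * (1 - X ^ 6) * S = X ^ 12) :
    S = X ^ 12 * K 4 * K 6 := by
  have h1 : (1 - X ^ 6) * S = X ^ 12 * K 4 := by
    apply eq_of_mul 4 (by norm_num)
    rw [← mul_assoc]
    exact hS
  exact eq_of_mul 6 (by norm_num) h1

/-- the coefficients of `1 / (1 - O t + S t ^ 2 (1 - t ^ 2))` -/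
noncomputable def c (O S : PowerSeries ℤ) : ℕ → PowerSeries ℤ
  | 0 => 1
  | 1 => O
  | 2 => O * c O S 1 - S * c O S 0
  | 3 => O * c O S 2 - S * c O S 1
  | n + 4 => O * c O S (n + 3) - S * c O S (n + 2) + S * c O S n

theorem c_mul (O S : PowerSeries ℤ) :
    (1 - C O * X + C S * X ^ 2 * (1 - X ^ 2)) * PowerSeries.mk (c O S) = 1 := by
  have h : (1 - C O * X + C S * X ^ 2 * (1 - X ^ 2)) * PowerSeries.mk (c O S) =
      PowerSeries.mk (c O S) - C O * (X ^ 1 * PowerSeries.mk (c O S)) +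
      C S * (X ^ 2 * PowerSeries.mk (c O S)) - C S * (X ^ 4 * PowerSeries.mk (c O S)) := by ring
  rw [h]
  ext1 d
  rw [map_sub, map_add, map_sub, coeff_C_mul, coeff_C_mul, coeff_C_mul, coeff_X_pow_mul',
    coeff_X_pow_mul', coeff_X_pow_mul', coeff_one]
  match d with
  | 0 => simp [c]
  | 1 => simp [c]
  | 2 => simp [c]
  | 3 => simp [c]
  | n + 4 =>
    have h1 : (1 : ℕ) ≤ n + 4 := by omega
    have h2 : (2 : ℕ) ≤ n + 4 := by omega
    have h4 : (4 : ℕ) ≤ n + 4 := by omega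
    have h0 : n + 4 ≠ 0 := by omega
    rw [if_pos h1, if_pos h2, if_pos h4, if_neg h0]
    have e1 : n + 4 - 1 = n + 3 := by omega
    have e2 : n + 4 - 2 = n + 2 := by omega
    have e4 : n + 4 - 4 = n := by omega
    rw [e1, e2, e4, coeff_mk, coeff_mk, coeff_mk, coeff_mk, c]
    ring

end Pool.Agent.BKN
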