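import Pool.Agent.BKN.Basic

/-!
MP_a6e4a6_nt. Nonnegativity, lower bound and support of the predicted numbers.
-/

set_option autoImplicit false

namespace Pool.Agent.BKN

open PowerSeries

theorem NN.of_eq {f g : PowerSeries ℤ} (hg : NN g) (h : f = g) : NN f := h ▸ hg

/-- `T - X ^ 3` has nonnegative coefficients -/
theorem NN.T3 : NN (BKN.T - X ^ 3) := by
  have h1 : NN (BKN.K 12 - 1) := by
    intro n
    rw [map_sub, BKN.K, coeff_mk, coeff_one]
    by_cases h0 : n = 0
    · subst h0
      norm_num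
    · rw [if_neg h0]
      split_ifs <;> norm_num
  have h2 : BKN.T - X ^ 3 = X ^ 3 * (BKN.K 12 - 1) + (X ^ 5 + X ^ 9) * BKN.K 12 := by
    rw [BKN.T]
    ring
  rw [h2]
  exact ((NN.xpow 3).mul h1).add (((NN.xpow 5).add (NN.xpow 9)).mul (NN.K 12))

theorem NN.S {S : PowerSeries ℤ} (hS : (1 - X ^ 4) * (1 - X ^ 6) * S = X ^ 12) : NN S := by
  rw [S_eq hS]
  exact ((NN.xpow 12).mul (NN.K 4)).mul (NN.K 6)

/-- the main induction -/
theorem main {O S : PowerSeries ℤ} (hO : (1 - X ^ 2) * O = X ^ 3)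
    (hS : (1 - X ^ 4) * (1 - X ^ 6) * S = X ^ 12) :
    ∀ n, NN (c O S n) ∧ NN (c O S (n + 1) - T * c O S n) := by
  have hTU := NN.TU hS
  have hSn := NN.S hS
  have hOe := O_eq hO
  intro n
  induction n using Nat.strong_induction_on with
  | _ n ih =>
    match n with
    | 0 =>
      refine ⟨NN.one.of_eq (by rw [c]), NN.U.of_eq ?_⟩
      rw [c, c, hOe]
      ring
    | 1 =>
      obtain ⟨h1, h2⟩ := ih 0 (by norm_num)
      have h3 : NN (c O S 1) := by
        refine (h2.add (NN.T.mul h1)).of_eq ?_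
        ring
      refine ⟨h3, ((NN.U.mul h2).add (hTU.mul h1)).of_eq ?_⟩
      have e : c O S (1 + 1) = O * c O S 1 - S * c O S 0 := rfl
      rw [e]
      have e0 : c O S (0 + 1) = c O S 1 := rfl
      rw [e0, hOe]
      ring
    | 2 =>
      obtain ⟨h1, h2⟩ := ih 1 (by norm_num)
      have h3 : NN (c O S 2) := by
        refine (h2.add (NN.T.mul h1)).of_eq ?_
        ring
      refine ⟨h3, ((NN.U.mul h2).add (hTU.mul h1)).of_eq ?_⟩
      have e : c O S (2 + 1) = O * c O S 2 - S * c O S 1 := rfl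
      rw [e]
      have e0 : c O S (1 + 1) = c O S 2 := rfl
      rw [e0, hOe]
      ring
    | n + 3 =>
      obtain ⟨h1, h2⟩ := ih (n + 2) (by omega)
      obtain ⟨h0, -⟩ := ih n (by omega)
      have h3 : NN (c O S (n + 3)) := by
        refine (h2.add (NN.T.mul h1)).of_eq ?_
        ring
      refine ⟨h3, (((NN.U.mul h2).add (hTU.mul h1)).add (hSn.mul h0)).of_eq ?_⟩
      have e : c O S (n + 3 + 1) = O * c O S (n + 3) - S * c O S (n + 2) + S * c O S n := rfl
      rw [e]
      have e0 : c O S (n + 2 + 1) = c O S (n + 3) := rfl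
      rw [e0, hOe]
      ring

theorem lower {O S : PowerSeries ℤ} (hO : (1 - X ^ 2) * O = X ^ 3)
    (hS : (1 - X ^ 4) * (1 - X ^ 6) * S = X ^ 12) (n : ℕ) : NN (c O S n - T ^ n) := by
  induction n with
  | zero =>
    refine NN.zero.of_eq ?_
    rw [c, pow_zero, sub_self]
  | succ n ih =>
    refine (((main hO hS n).2).add (NN.T.mul ih)).of_eq ?_
    rw [pow_succ]
    ring

/-- `c (n+1)` at `N + 3` is at least `c n` at `N` -/
theorem shift {O S : PowerSeries ℤ} (hO : (1 - X ^ 2) * O = X ^ 3)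
    (hS : (1 - X ^ 4) * (1 - X ^ 6) * S = X ^ 12) (n N : ℕ) :
    coeff N (c O S n) ≤ coeff (N + 3) (c O S (n + 1)) := by
  have h : NN (c O S (n + 1) - X ^ 3 * c O S n) := by
    refine (((main hO hS n).2).add (NN.T3.mul (main hO hS n).1)).of_eq ?_
    ring
  have h1 := h (N + 3)
  rw [map_sub, coeff_X_pow_mul', if_pos (by omega : 3 ≤ N + 3), Nat.add_sub_cancel] at h1
  linarith

theorem pos {O S : PowerSeries ℤ} (hO : (1 - X ^ 2) * O = X ^ 3)
    (hS : (1 - X ^ 4) * (1 - X ^ 6) * S = X ^ 12) (n : ℕ) :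
    ∀ k, 0 < coeff (3 * (n + 1) + 2 * k) (c O S (n + 1)) := by
  intro k
  induction n with
  | zero =>
    have e : c O S (0 + 1) = X ^ 3 * K 2 := by
      rw [← eq_of_mul 2 (by norm_num) hO]
      rfl
    rw [e, coeff_X_pow_mul', if_pos (by omega), K, coeff_mk, if_pos]
    · norm_num
    · omega
  | succ n ih =>
    have h1 := shift hO hS (n + 1) (3 * (n + 1) + 2 * k)
    have e : 3 * (n + 1 + 1) + 2 * k = 3 * (n + 1) + 2 * k + 3 := by ring
    rw [e]
    exact lt_of_lt_of_le ih h1

theorem dvd {O S : PowerSeries ℤ} (hO : (1 - X ^ 2) * O = X ^ 3)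
    (hS : (1 - X ^ 4) * (1 - X ^ 6) * S = X ^ 12) (n : ℕ) : X ^ (3 * n) ∣ c O S n := by
  have hO' : X ^ 3 ∣ O := ⟨K 2, eq_of_mul 2 (by norm_num) hO⟩
  have hS' : X ^ 12 ∣ S := ⟨K 4 * K 6, by rw [S_eq hS]; ring⟩
  induction n using Nat.strong_induction_on with
  | _ n ih =>
    match n with
    | 0 => simp
    | 1 =>
      have e : c O S 1 = O := rfl
      rw [e]
      exact hO'
    | 2 =>
      have e : c O S 2 = O * c O S 1 - S * c O S 0 := rfl
      rw [e]
      refine dvd_sub ?_ ?_
      · have h := mul_dvd_mul hO' (ih 1 (by norm_num))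
        rw [← pow_add] at h
        exact (pow_dvd_pow X (by norm_num)).trans h
      · exact ((pow_dvd_pow X (by norm_num)).trans hS').mul_right _
    | 3 =>
      have e : c O S 3 = O * c O S 2 - S * c O S 1 := rfl
      rw [e]
      refine dvd_sub ?_ ?_
      · have h := mul_dvd_mul hO' (ih 2 (by norm_num))
        rw [← pow_add] at h
        exact (pow_dvd_pow X (by norm_num)).trans h
      · exact ((pow_dvd_pow X (by norm_num)).trans hS').mul_right _
    | n + 4 =>
      have e : c O S (n + 4) = O * c O S (n + 3) - S * c O S (n + 2) + S * c O S n := rfl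
      rw [e]
      refine dvd_add (dvd_sub ?_ ?_) ?_
      · have h := mul_dvd_mul hO' (ih (n + 3) (by omega))
        rw [← pow_add] at h
        exact (pow_dvd_pow X (by omega)).trans h
      · have h := mul_dvd_mul hS' (ih (n + 2) (by omega))
        rw [← pow_add] at h
        exact (pow_dvd_pow X (by omega)).trans h
      · have h := mul_dvd_mul hS' (ih n (by omega))
        rw [← pow_add] at h
        exact (pow_dvd_pow X (by omega)).trans h

/-- the coefficients of `(1 + E t) / B` -/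
theorem coeff_G {E O S : PowerSeries ℤ} {G : PowerSeries (PowerSeries ℤ)}
    (hG : (1 - C O * X + C S * X ^ 2 * (1 - X ^ 2)) * G = 1 + C E * X) (d : ℕ) :
    coeff d G = c O S d + if 1 ≤ d then E * c O S (d - 1) else 0 := by
  have hB := c_mul O S
  have h0 : (1 - C O * X + C S * X ^ 2 * (1 - X ^ 2)) ≠ 0 := by
    intro h
    rw [h, zero_mul] at hB
    exact zero_ne_one hB
  have h1 : G = PowerSeries.mk (c O S) + C E * (X ^ 1 * PowerSeries.mk (c O S)) := by
    refine mul_left_cancel₀ h0 ?_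
    rw [hG]
    linear_combination (-(1 + C E * X)) * hB
  rw [h1, map_add, coeff_C_mul, coeff_X_pow_mul', coeff_mk]
  split_ifs
  · rw [coeff_mk]
  · rw [mul_zero]

end Pool.Agent.BKN
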